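import Mathlib
import Pool.Agent.Lib_helper53.TransportOp6

open MeasureTheory Metric Set Filter
open scoped ENNReal Topology

namespace Pool.Agent.Results.MP_f7849a_an.NegativeDerivative

open Pool.Agent.Lib_helper53.Transport

/-- There is a nonempty bounded open set `V`, even a convex one, such that for every `lam > 0` the
transport integral equation has a bounded measurable solution `M lam`, unique on `V × S2`, and at some
phase-space point the derivative in `lam` at `lam = 1` of the solution exists and is negative. -/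
theorem result : ∃ V : Set E3, IsOpen V ∧ Bornology.IsBounded V ∧ V.Nonempty ∧ Convex ℝ V ∧
    ∃ M : ℝ → E3 × S2 → ℝ,
      (∀ lam, 0 < lam → IsSolution V lam (M lam) ∧
        ∀ M' : E3 × S2 → ℝ, IsSolution V lam M' → ∀ r ∈ V, ∀ ω : S2, M' (r, ω) = M lam (r, ω)) ∧
      ∃ r ∈ V, ∃ ω : S2, ∃ d : ℝ, d < 0 ∧ HasDerivAt (fun lam => M lam (r, ω)) d 1 := by
  set θ : ℝ := 1 / 1000000 with hθdef
  have hθ : 0 < θ := by norm_num [hθdef]
  have hθ1 : θ ≤ 1 / 1000000 := le_rfl
  have ho := isOpen_pyr θ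
  have hc := convex_pyr θ
  have hV := ho.measurableSet
  have h7 : (0 : ℝ) < 7 := by norm_num
  have hVR := pyr_R hθ hθ1
  have hr0 : (0 : E3) ∈ pyr θ := by
    have := ax_mem (θ := θ) hθ le_rfl (by norm_num : (0 : ℝ) < 6)
    simpa [ax] using this
  refine ⟨pyr θ, ho, isBounded_pyr hθ hθ1, ⟨0, hr0⟩, hc, ?_⟩
  have hex : ∀ lam : ℝ, ∃ F : E3 × S2 → ℝ, 0 < lam → BM F ∧ ∀ p, F p = G (pyr θ) 7 p + K (pyr θ) 7 (ker lam) (avg F) p := by
    intro lam
    by_cases hl : 0 < lam
    · obtain ⟨F, hF⟩ := exists_fix hV h7.le hl (G_bm hV h7.le)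
      exact ⟨F, fun _ => hF⟩
    · exact ⟨fun _ => 0, fun h => absurd h hl⟩
  choose M hM using hex
  refine ⟨M, ?_, 0, hr0, e0, ?_⟩
  · intro lam hlam
    obtain ⟨hbm, hfix⟩ := hM lam hlam
    exact ⟨isSolution_of_fix ho hc h7 hVR hbm lam hfix,
      fun M' hM' r hr ω => unique_solution ho hc h7 hVR hbm hlam hfix hM' r hr ω⟩
  · obtain ⟨N, hN, hfixN⟩ := exists_fix (V := pyr θ) (R := 7) hV h7.le one_pos
      (K_bm hV h7.le continuous_ell (avg_bm (hM 1 one_pos).1))
    refine ⟨N (0, e0), ?_, hasDerivAt_M hV h7.le M (fun lam hl => (hM lam hl).1) (fun lam hl => (hM lam hl).2)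
      hN hfixN (0, e0)⟩
    have hq0 : 0 ≤ 37 * θ := by positivity
    have hq1 : 37 * θ < 1 := by norm_num [hθdef]
    have happrox := N_approx hV h7.le hq0 hq1 (avgG_le hθ hθ1) (hM 1 one_pos).1 hN (hM 1 one_pos).2 hfixN (0, e0)
    have hmain := main_term hθ hθ1
    have herr : (1 + 7) * (37 * θ) ^ 2 / (1 - 37 * θ) + (1 + 7) * (37 * θ) ^ 2 / (1 - 37 * θ) ^ 2 < 24 / 100 * θ := by
      norm_num [hθdef]
    rw [abs_le] at happrox
    linarith [happrox.2]

end Pool.Agent.Results.MP_f7849a_an.NegativeDerivative
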